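import Mathlib
import Pool.Agent.X285.DR.Alg11
import Pool.Agent.X285.HN.Amp
import Pool.Agent.H793R2.HilbFin
import Pool.Agent.H298R2.Kuyk
import Pool.Agent.H33R2.V3

/-!
# Split embedding problems over all Hilbertian algebraic extensions of a non-ample field

Every field `M` of characteristic `0` is algebraically closed in a Hilbertian field `K` of the same
cardinality such that over *every* Hilbertian algebraic extension `E` of `K` every finite split
embedding problem has a proper solution. These `E` include all finite and all abelian extensions of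
`K`. No finite extension of `K` is ample, and their ample subfields are algebraic over `M`; the ample
subfields of `K` lie in `M`. In particular (`M = ℚ`) there is a countable such field `K` without
ample subfields.
-/

set_option autoImplicit false

open scoped Cardinal

namespace Pool.Agent.Results.MP_e9d732_al.AlgebraicExtensions

/-- `K` is ample (large), in the form: `K` is existentially closed in `K((t))`. -/
def IsAmple (K : Type) [Field K] : Prop :=
  ∀ (n : ℕ) (s : Finset (MvPolynomial (Fin n) K)),
    (∃ x : Fin n → LaurentSeries K, ∀ p ∈ s, MvPolynomial.aeval x p = 0) →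
    ∃ y : Fin n → K, ∀ p ∈ s, MvPolynomial.eval y p = 0

/-- `K` is Hilbertian, in the form of the frozen statement `S03429`. -/
def IsHilbertian (K : Type) [Field K] : Prop :=
  ∀ (f : Polynomial (Polynomial K)), f.Monic → Irreducible f →
    (f.map (algebraMap (Polynomial K) (FractionRing (Polynomial K)))).Separable →
    ∀ g : Polynomial K, g ≠ 0 →
      ∃ a : K, g.eval a ≠ 0 ∧ Irreducible (f.map (Polynomial.evalRingHom a))

/-- Every finite split embedding problem over `K` has a proper solution (the conclusion of the
frozen statement `S03429`). -/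
def SolvesSplitEP (K : Type) [Field K] : Prop :=
  ∀ (F1 : Type) [Field F1] [Algebra K F1] [FiniteDimensional K F1] [IsGalois K F1]
    (G : Type) [Group G] [Finite G] (α : G →* (F1 ≃ₐ[K] F1)), Function.Surjective α →
    (∃ s : (F1 ≃ₐ[K] F1) →* G, ∀ x, α (s x) = x) →
    ∃ (F : Type) (_ : Field F) (_ : Algebra K F) (_ : Algebra F1 F) (_ : IsScalarTower K F1 F),
      FiniteDimensional K F ∧ IsGalois K F ∧
      ∃ γ : (F ≃ₐ[K] F) ≃* G, ∀ σ : F ≃ₐ[K] F, α (γ σ) = σ.restrictNormal F1

/-- For the extension `K` of `M`: `K` is Hilbertian, over every Hilbertian algebraic extension `E` of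
`K` every finite split embedding problem has a proper solution, all finite and all abelian
extensions `E` of `K` are Hilbertian, and the finite ones are not ample, and their ample subfields
are algebraic over `M`. -/
def GoodExtension (M K : Type) [Field M] [Field K] [Algebra M K] : Prop :=
  IsHilbertian K ∧
  (∀ (E : Type) [Field E] [Algebra K E] [Algebra.IsAlgebraic K E],
    IsHilbertian E → SolvesSplitEP E) ∧
  (∀ (E : Type) [Field E] [Algebra K E] [IsGalois K E],
    (∀ σ τ : E ≃ₐ[K] E, σ * τ = τ * σ) → IsHilbertian E) ∧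
  ∀ (E : Type) [Field E] [Algebra K E] [Algebra M E] [IsScalarTower M K E] [FiniteDimensional K E],
    IsHilbertian E ∧ ¬ IsAmple E ∧
      ∀ (A : Type) [Field A] (j : A →+* E), IsAmple A → ∀ a, IsAlgebraic M (j a)

/-- Every field `M` of characteristic `0` is algebraically closed in a field `K` of the same
cardinality such that every Hilbertian algebraic extension `E` of `K` satisfies the assertion of the
problem, and `K` and its finite extensions are far from ample; there is a countable such field
without ample subfields. -/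
theorem result :
    (∀ (M : Type) [Field M] [CharZero M], ∃ (K : Type) (_ : Field K) (_ : Algebra M K),
      #K = #M ∧ (∀ y : K, IsAlgebraic M y → y ∈ Set.range (algebraMap M K)) ∧ GoodExtension M K ∧
      ∀ (A : Type) [Field A] (j : A →+* K), IsAmple A → ∀ a, j a ∈ Set.range (algebraMap M K)) ∧
    ∃ (K : Type) (_ : Field K) (_ : Algebra ℚ K), #K = ℵ₀ ∧
      (∀ y : K, IsAlgebraic ℚ y → y ∈ Set.range (algebraMap ℚ K)) ∧ GoodExtension ℚ K ∧
      ∀ (A : Type) [Field A], IsAmple A → IsEmpty (A →+* K) := by
  have key : ∀ (M : Type) [Field M] [CharZero M], ∃ (K : Type) (_ : Field K) (_ : Algebra M K),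
      #K = #M ∧ (∀ y : K, IsAlgebraic M y → y ∈ Set.range (algebraMap M K)) ∧ GoodExtension M K ∧
      ∀ (A : Type) [Field A] (j : A →+* K), IsAmple A → ∀ a, j a ∈ Set.range (algebraMap M K) := by
    intro M _ _
    obtain ⟨K, fK, aK, h1, h2, ⟨y, hy⟩, h4, h5, h7, h6⟩ := Pool.Agent.X285.DR.mainH M
    have hcK : CharZero K := charZero_of_injective_algebraMap (algebraMap M K).injective
    have h4' : IsHilbertian K := by
      classical
      intro f hfm hfi _ g hg
      have hd : 0 < f.natDegree := by
        rw [Nat.pos_iff_ne_zero]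
        intro h0
        apply hfi.not_isUnit
        rw [hfm.natDegree_eq_zero.1 h0]
        exact isUnit_one
      obtain ⟨a, ha1, ha2⟩ := ((h4 f hfi hd).sdiff g.roots.toFinset.finite_toSet).nonempty
      refine ⟨a, fun h0 => ha2 ?_, ha1⟩
      rw [Finset.mem_coe, Multiset.mem_toFinset, Polynomial.mem_roots hg]
      exact h0
    refine ⟨K, fK, aK, h1, h2, ⟨h4', ?_, ?_, ?_⟩, ?_⟩
    · intro E _ _ _ hE L _ _ _ _ G _ _ α hα hs
      obtain ⟨F, i1, i2, i3, i4, i5, i6, i7, i8, γ, hγ, -⟩ :=
        Pool.Agent.X285.DR.holds_alg K E h5 L G α hs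
      exact H33.hilbert_spec E hE L G α ⟨F, i1, i2, i3, i4, i5, i6, i7, i8, γ, hγ⟩
    · intro E _ _ _ hab
      exact Pool.Agent.H298R2.Kuyk.taskK K E hab h4'
    · intro E _ _ _ _ _
      have h8 : ∀ (A : Type) [Field A] (j : A →+* E), IsAmple A → ∀ a, IsAlgebraic M (j a) := by
        intro A _ j hA a
        obtain ⟨p, hp0, hp⟩ := h6 E A j hA a
        refine ⟨p, hp0, ?_⟩
        rw [Polynomial.aeval_def, IsScalarTower.algebraMap_eq M K E]
        exact hp
      refine ⟨Pool.Agent.H793R2.HilbFin.main K E h4', fun hE => ?_, h8⟩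
      have h9 := h8 E (RingHom.id E) hE (algebraMap K E y)
      exact hy ((isAlgebraic_algebraMap_iff (algebraMap K E).injective).1 h9)
    · intro A _ j hA a
      obtain ⟨p, hp0, hp⟩ := h6 K A j hA a
      apply h2
      refine ⟨p, hp0, ?_⟩
      rw [Polynomial.aeval_def]
      exact hp
  refine ⟨key, ?_⟩
  obtain ⟨K, fK, aK, h1, h2, h3, h6⟩ := key ℚ
  refine ⟨K, fK, aK, ?_, h2, h3, ?_⟩
  · rw [h1]
    exact Cardinal.mkRat
  · intro A _ hA
    refine ⟨fun j => ?_⟩
    have h8 := h6 A j hA
    have hr : ∀ a, j a ∈ (algebraMap ℚ K).fieldRange := fun a => h8 a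
    let j' : A →+* ℚ := ((algebraMap ℚ K).rangeRestrictFieldEquiv.symm :
      ↥(algebraMap ℚ K).fieldRange →+* ℚ).comp (j.codRestrict _ hr)
    exact Pool.Agent.X285.HN.not_ample_rat j' hA

end Pool.Agent.Results.MP_e9d732_al.AlgebraicExtensions
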