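import Mathlib
import Pool.Agent.X285.HN.Fin

/-!
# Non-ample Hilbertian fields over which all finite embedding problems are solvable

Every field `M` is algebraically closed in a Hilbertian field `K` of cardinality `max (#M, ℵ₀)`
over which *every* finite embedding problem (split or not) has a proper solution, and such that the
solutions in `K` of the Fermat equations `a ^ N + b ^ N = 1` (`N ≥ 3` prime to the characteristic)
all lie in `M`; consequently every ample subfield of `K` is contained in `M`, and `K` is not ample.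
In particular there are, in every characteristic, countable Hilbertian fields without ample
subfields over which every finite embedding problem is solvable.
-/

set_option autoImplicit false

open scoped Cardinal

namespace Pool.Agent.Results.MP_e9d732_al.NonAmpleHilbertian

/-- `K` is ample (large), in the form: `K` is existentially closed in `K((t))`. -/
def IsAmple (K : Type) [Field K] : Prop :=
  ∀ (n : ℕ) (s : Finset (MvPolynomial (Fin n) K)),
    (∃ x : Fin n → LaurentSeries K, ∀ p ∈ s, MvPolynomial.aeval x p = 0) →
    ∃ y : Fin n → K, ∀ p ∈ s, MvPolynomial.eval y p = 0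

/-- `K` is Hilbertian: for every irreducible `f ∈ K[T][X]` of positive degree in `X` which is
separable in `X`, the polynomial `f(a, X)` is irreducible for infinitely many `a ∈ K`. -/
def IsHilbertian (K : Type) [Field K] : Prop :=
  ∀ f : Polynomial (Polynomial K), Irreducible f → 0 < f.natDegree →
    (f.map (algebraMap (Polynomial K) (FractionRing (Polynomial K)))).Separable →
    {a : K | Irreducible (f.map (Polynomial.evalRingHom a))}.Infinite

/-- Every finite embedding problem `α : G → Gal(F₁/K)` over `K` has a proper solution. -/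
def SolvesAllEP (K : Type) [Field K] : Prop :=
  ∀ (F1 : Type) [Field F1] [Algebra K F1] [FiniteDimensional K F1] [IsGalois K F1]
    (G : Type) [Group G] [Finite G] (α : G →* (F1 ≃ₐ[K] F1)), Function.Surjective α →
    ∃ (F : Type) (_ : Field F) (_ : Algebra K F) (_ : Algebra F1 F) (_ : IsScalarTower K F1 F),
      FiniteDimensional K F ∧ IsGalois K F ∧
      ∃ γ : (F ≃ₐ[K] F) ≃* G, ∀ σ : F ≃ₐ[K] F, α (γ σ) = σ.restrictNormal F1

end Pool.Agent.Results.MP_e9d732_al.NonAmpleHilbertian

open Pool.Agent.Results.MP_e9d732_al.NonAmpleHilbertian in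
/-- Non-ample Hilbertian fields over which all finite embedding problems are solvable. -/
theorem Pool.Agent.Results.MP_e9d732_al.NonAmpleHilbertian.result :
    (∀ (M : Type) [Field M], ∃ (K : Type) (_ : Field K) (_ : Algebra M K),
      #K = max #M ℵ₀ ∧
      (∀ y : K, IsAlgebraic M y → y ∈ Set.range (algebraMap M K)) ∧
      (∀ N : ℕ, 3 ≤ N → (N : K) ≠ 0 → ∀ a b : K, a ^ N + b ^ N = 1 →
        a ∈ Set.range (algebraMap M K) ∧ b ∈ Set.range (algebraMap M K)) ∧
      (∀ (A : Type) [Field A] (j : A →+* K), IsAmple A → ∀ a, j a ∈ Set.range (algebraMap M K)) ∧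
      ¬ IsAmple K ∧ IsHilbertian K ∧ SolvesAllEP K) ∧
    ∀ p : ℕ, (p = 0 ∨ p.Prime) → ∃ (K : Type) (_ : Field K), CharP K p ∧ #K = ℵ₀ ∧
      (∀ (A : Type) [Field A], IsAmple A → IsEmpty (A →+* K)) ∧
      IsHilbertian K ∧ SolvesAllEP K := by
  constructor
  · intro M _
    obtain ⟨K, fK, aK, h1, h2, h3, h4, h5, h6, h7⟩ := Pool.Agent.X285.HN.mainX M
    exact ⟨K, fK, aK, h1, h2, h3, h4, h5, fun f hf hd _ => h6 f hf hd, h7⟩
  · intro p hp
    obtain ⟨K, fK, h1, h2, h3, h4, h5⟩ := Pool.Agent.X285.HN.mainP p hp
    exact ⟨K, fK, h1, h2, h3, fun f hf hd _ => h4 f hf hd, h5⟩
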