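import Mathlib
import Pool.Agent.X285.FT.Main

/-!
# All finite embedding problems over Galois extensions with perfect group and Northcott property

Let `K` be a countable Hilbertian field of characteristic zero, for example a number field.  There
is a Galois extension `F / K` whose Galois group is a product `∏ (A_(m i) ≀ A_(n i)) ≀ A_(r i)` of
*perfect* finite groups such that `F` is Hilbertian and *every* finite embedding problem over `F`,
split or not, has a proper solution.  No finite solvable Galois extension `E ≠ K` of `K` is
contained in `F`, and `F` can be chosen linearly disjoint from a given finite extension `M` of `K`.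
If `K` is a number field, then moreover every finite extension of `F` has the Northcott property.
-/

set_option autoImplicit false

open Pool.Agent.H391R2 Pool.Agent.Y793

namespace Pool.Agent.Results.MP_e9d732_al.NorthcottHilbertian

/-- `K` is Hilbertian: every monic irreducible `f ∈ K[T][X]` which is separable over `K(T)` has an
irreducible specialization `f(a, X)` with `g(a) ≠ 0`, for every nonzero polynomial `g`. -/
def IsHilbertian (K : Type) [Field K] : Prop :=
  ∀ f : Polynomial (Polynomial K), f.Monic → Irreducible f →
    (f.map (algebraMap (Polynomial K) (FractionRing (Polynomial K)))).Separable →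
    ∀ g : Polynomial K, g ≠ 0 →
      ∃ a : K, g.eval a ≠ 0 ∧ Irreducible (f.map (Polynomial.evalRingHom a))

/-- Every finite embedding problem `α : G → Gal(F₁/K)` over `K` has a proper solution. -/
def SolvesAllEP (K : Type) [Field K] : Prop :=
  ∀ (F1 : Type) [Field F1] [Algebra K F1] [FiniteDimensional K F1] [IsGalois K F1]
    (G : Type) [Group G] [Finite G] (α : G →* (F1 ≃ₐ[K] F1)), Function.Surjective α →
    ∃ (F : Type) (_ : Field F) (_ : Algebra K F) (_ : Algebra F1 F) (_ : IsScalarTower K F1 F),
      FiniteDimensional K F ∧ IsGalois K F ∧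
      ∃ γ : (F ≃ₐ[K] F) ≃* G, ∀ σ : F ≃ₐ[K] F, α (γ σ) = σ.restrictNormal F1

/-- The Northcott property: there are only finitely many elements of bounded absolute logarithmic
Weil height. -/
def Northcott (F : Type) [Field F] [CharZero F] : Prop :=
  ∀ R : ℝ, {x : F | NumberField.absLogHeight₁ x ≤ R}.Finite

/-- The wreath product `A_m ≀ A_n` of two alternating groups. -/
def AltWr2 (m n : ℕ) : Type := AWr (alternatingGroup (Fin m)) n

/-- The group structure of `AltWr2 m n`. -/
instance altWr2Group (m n : ℕ) : Group (AltWr2 m n) :=
  inferInstanceAs (Group (AWr (alternatingGroup (Fin m)) n))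

/-- The iterated wreath product `(A_m ≀ A_n) ≀ A_r` of alternating groups. -/
def AltWr3 (m n r : ℕ) : Type := AWr (AltWr2 m n) r

/-- The group structure of `AltWr3 m n r`. -/
instance altWr3Group (m n r : ℕ) : Group (AltWr3 m n r) :=
  inferInstanceAs (Group (AWr (AltWr2 m n) r))

end Pool.Agent.Results.MP_e9d732_al.NorthcottHilbertian

open Pool.Agent.Results.MP_e9d732_al.NorthcottHilbertian in
/-- All finite embedding problems over Galois extensions with perfect group. -/
theorem Pool.Agent.Results.MP_e9d732_al.NorthcottHilbertian.result (K : Type) [Field K]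
    [CharZero K] [Countable K] (hK : NumberField K ∨ IsHilbertian K)
    (M : Type) [Field M] [Algebra K M] [FiniteDimensional K M] (b : ℕ) :
    ∃ (m n r : ℕ → ℕ) (F : Type) (_ : Field F) (_ : Algebra K F) (_ : IsGalois K F)
      (e : (F ≃ₐ[K] F) ≃* ∀ i, AltWr3 (m i) (n i) (r i)),
      (StrictMono m ∧ StrictMono n ∧ StrictMono r ∧ ∀ i, b ≤ m i ∧ b ≤ n i ∧ b ≤ r i) ∧
      (∀ i, commutator (AltWr3 (m i) (n i) (r i)) = ⊤) ∧
      (∀ i, IsOpen {σ : F ≃ₐ[K] F | e σ i = 1}) ∧
      (∀ E : IntermediateField K F, FiniteDimensional K E → IsGalois K E →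
        Group.IsSolvable (E ≃ₐ[K] E) → E = ⊥) ∧
      (∀ E : IntermediateField K F, Nonempty (E →ₐ[K] M) → E = ⊥) ∧
      IsHilbertian F ∧ SolvesAllEP F ∧
      (NumberField K → ∀ (F' : Type) [Field F'] [CharZero F'] [Algebra F F']
        [FiniteDimensional F F'], Northcott F') :=
  Pool.Agent.X285.FT.final K hK M b
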